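import Pool.Agent.Work.MP_a5099b_nt.F.Inv
import Pool.Agent.Work.MP_a5099b_nt.SpecB
import Pool.Agent.Work.MP_a5099b_nt.SpecE

/-!
# Module F.Br (size M): the branches of `Φ_l` over `k⟦S⟧`

`red l` is `Φ_l` with coefficients in `k`.

PROOFS.
* `red_symm`: `PhiAt_symm` in the ring `k[X][X]` with `x = C X`, `y = X`: `(PhiAt l (C X)).eval X = red l` and
  `(PhiAt l X).eval (C X) = swap (red l)`; or `swap` and reduction commute and `swap (Phi l) = Phi l` over `ℤ[X][X]`.
* `red_sh`: both sides are `(Phi l).map` of ring homomorphisms `ℤ[X] → k⟦X⟧` which agree on `X` (`sh y X = C y + X`).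
* `red_diag`: `(red l).eval X = (PhiDiag l).map (Int.castRingHom k)`; nonzero because the leading coefficient `-1` and
  `natDegree_map`-type lemma (`Monic` of the negative).
* `red_fib`: `(red l).map (evalRingHom y) = PhiAt l y`.
* `branches`: `phi_split` gives the multiset `s`; it has no multiple members: put `F = FractionRing k⟦X⟧` (a field in `Type`, characteristic `q`),
  `x = C y + X` in it, `PhiAt l x = ∏ (X - C u)` over `s` (mapped, `PhiAt_map`); `PhiAt_sep` (`p = q`, `n = l`) gives `D` with
  `D(x) ≠ 0`: `D` has nonzero reduction, and `p ↦ p(C y + X)` is injective from `k[X]` to `k⟦X⟧` (the composition of the translation by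
  `y`, an automorphism of `k[X]`, and the inclusion of polynomials in power series); so `PhiAt l x` is separable and the images of the
  `u ∈ s` are distinct (`Polynomial.Separable.squarefree`, `nodup_roots`, `roots_multiset_prod_X_sub_C`). Take `ι = Fin (card s)` and `Yi` =
  the members of `s.toList`.
-/

set_option autoImplicit false

namespace Pool.Agent.SSF

open Polynomial

open scoped Polynomial.Bivariate

open Pool.Agent.SS

/-- the reduction of `Φ_l` -/
noncomputable def red (l : ℕ) (k : Type*) [Field k] : k[X][Y] :=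
  (Phi l).map (mapRingHom (Int.castRingHom k))

variable {k : Type} [Field k]

private theorem comp_ext {A : Type*} [CommRing A] (f g : ℤ[X] →+* A) (h : f X = g X) : f = g :=
  Polynomial.ringHom_ext' (RingHom.ext_int _ _) h

theorem red_symm {l : ℕ} (hl : l.Prime) : Bivariate.swap (red l k) = red l k := by
  have h1 : (PhiAt l (C X : k[X][Y])).eval X = red l k := by
    rw [PhiAt, red, eval_map, Polynomial.map]
    congr 1
    apply comp_ext
    simp
  have h2 : (PhiAt l (X : k[X][Y])).eval (C X) = Bivariate.swap (red l k) := by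
    rw [PhiAt, red, eval_map, Polynomial.map]
    rw [← RingHom.coe_coe (Bivariate.swap (R := k)), Polynomial.hom_eval₂]
    congr 1
    · apply comp_ext
      simp [Bivariate.swap_apply]
    · simp [Bivariate.swap_apply]
  rw [← h2, ← PhiAt_symm hl, h1]

theorem red_sh (l : ℕ) (y : k) :
    (red l k).map (sh y) = PhiAt l (PowerSeries.C y + PowerSeries.X : PowerSeries k) := by
  rw [PhiAt, red, Polynomial.map_map]
  congr 1
  apply comp_ext
  simp [sh]

theorem red_diag (l : ℕ) : (red l k).eval X = (PhiDiag l).map (Int.castRingHom k) := by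
  have h := Polynomial.eval₂_at_apply (mapRingHom (Int.castRingHom k)) (X : ℤ[X]) (p := Phi l)
  rw [PhiDiag, red, eval_map, ← coe_mapRingHom, ← h]
  simp

theorem red_diag_ne {l : ℕ} (hl : l.Prime) : (red l k).eval X ≠ 0 := by
  rw [red_diag]
  intro h
  have h1 : ((PhiDiag l).map (Int.castRingHom k)).coeff (PhiDiag l).natDegree = 0 := by
    rw [h]; simp
  rw [coeff_map, coeff_natDegree, PhiDiag_leadingCoeff hl] at h1
  simp at h1

theorem red_fib (l : ℕ) (y : k) : (red l k).map (evalRingHom y) = PhiAt l y := by
  rw [PhiAt, red, Polynomial.map_map]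
  congr 1
  apply comp_ext
  simp

private theorem sh_inj (y : k) : Function.Injective (sh y) := by
  have h : ∀ p : k[X], sh y p = ((taylor y p : k[X]) : PowerSeries k) := by
    intro p
    have : (sh y) = (Polynomial.coeToPowerSeries.ringHom).comp
        ((Polynomial.compRingHom (X + C y))) := by
      apply Polynomial.ringHom_ext
      · intro a
        simp [sh]
      · simp [sh, add_comm]
    rw [this]
    simp [taylor_apply]
  intro p p' hp
  rw [h, h] at hp
  exact taylor_injective y (Polynomial.coe_injective k hp)

private theorem nodup_aux {q l : ℕ} (hq : q.Prime) (hl : l.Prime) (hlq : l ≠ q) [CharP k q]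
    (y : k) (F : Type) [Field F] (φ : PowerSeries k →+* F) (hφ : Function.Injective φ)
    (s : Multiset (PowerSeries k))
    (hs : PhiAt l (PowerSeries.C y + PowerSeries.X : PowerSeries k) =
        (s.map fun u => X - C u).prod) : s.Nodup := by
  have : Fact q.Prime := ⟨hq⟩
  obtain ⟨D, hD0, hD⟩ := PhiAt_sep hl hq (Ne.symm hlq)
  have hDk : D.map (Int.castRingHom k) ≠ 0 := by
    have e : D.map (Int.castRingHom k) =
        (D.map (Int.castRingHom (ZMod q))).map (ZMod.castHom (dvd_refl q) k) := by
      rw [Polynomial.map_map]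
      congr 1
      exact RingHom.ext_int _ _
    rw [e]
    exact (Polynomial.map_ne_zero_iff (ZMod.castHom (dvd_refl q) k).injective).2 hD0
  have : CharP F q := charP_of_injective_ringHom (f := φ.comp PowerSeries.C)
    (RingHom.injective _) q
  have hne : aeval (φ (PowerSeries.C y + PowerSeries.X)) D ≠ 0 := by
    have e : aeval (φ (PowerSeries.C y + PowerSeries.X)) D =
        φ (sh y (D.map (Int.castRingHom k))) := by
      have : ((aeval (φ (PowerSeries.C y + PowerSeries.X)) : ℤ[X] →ₐ[ℤ] F) : ℤ[X] →+* F) =
          (φ.comp (sh y)).comp (mapRingHom (Int.castRingHom k)) := by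
        apply comp_ext
        simp [sh]
      exact congrArg (fun f : ℤ[X] →+* F => f D) this
    rw [e]
    intro h
    rw [map_eq_zero_iff _ hφ, map_eq_zero_iff _ (sh_inj y)] at h
    exact hDk h
  have hsep := hD F _ hne
  rw [← PhiAt_map, hs, Polynomial.map_multiset_prod, Multiset.map_map] at hsep
  have hsep' : ((s.map φ).map fun a => X - C a).prod.Separable := by
    rw [Multiset.map_map]
    have e : (fun a => X - C a : F → F[X]) ∘ φ =
        (fun p : (PowerSeries k)[X] => p.map φ) ∘ fun u => X - C u := by
      funext u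
      simp
    rw [e]
    exact hsep
  have hnd : (s.map φ).Nodup := by
    have := Polynomial.nodup_roots hsep'
    rwa [Polynomial.roots_multiset_prod_X_sub_C] at this
  exact Multiset.Nodup.of_map _ hnd

theorem branches {q l : ℕ} (hq : q.Prime) (h5 : 5 ≤ q) (hl : l.Prime) (hl5 : 5 ≤ l)
    (hlq : l ≠ q) [CharP k q] [IsAlgClosed k] (y : k) (h0 : y ≠ 0) (h1 : y ≠ 1728) :
    ∃ (n : ℕ) (Yi : Fin n → PowerSeries k), Function.Injective Yi ∧
      (red l k).map (sh y) = ∏ i, (X - C (Yi i)) := by
  obtain ⟨s, hs⟩ := phi_split hq h5 hl hl5 hlq y h0 h1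
  have hnd' : s.Nodup := nodup_aux hq hl hlq y (FractionRing (PowerSeries k))
    (algebraMap _ _) (IsFractionRing.injective (PowerSeries k) _) s hs
  refine ⟨s.toList.length, fun i => s.toList.get i, ?_, ?_⟩
  · have : s.toList.Nodup := by
      rw [← Multiset.coe_nodup, Multiset.coe_toList]
      exact hnd'
    exact List.nodup_iff_injective_get.1 this
  · rw [red_sh, hs]
    conv_lhs => rw [← Multiset.coe_toList s]
    rw [Multiset.map_coe, Multiset.prod_coe]
    rw [← List.prod_ofFn]
    congr 1
    have h := List.map_ofFn (f := fun i => s.toList.get i)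
      (g := fun u => (X - C u : (PowerSeries k)[X]))
    rw [List.ofFn_get] at h
    exact h

end Pool.Agent.SSF
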