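import Mathlib

/-!
# Module F.Parity (size S-M, Mathlib only): parity of a sum over a set with an involution

PROOF. Strong induction on the number of elements of `s`, or: the elements with `σ i ≠ i` come in pairs with the same
value (`Finset.sum_involution` in `ZMod 2`: `∑ (c i - 1) = 0` in `ZMod 2`, since for `σ i ≠ i`:
`(c i - 1) + (c (σ i) - 1) = 2 (c i - 1) = 0`, and a fixed `i` has `c i - 1 = 0`). Then `∑ c i = s.card` in `ZMod 2`.
-/

set_option autoImplicit false

namespace Pool.Agent.SSF

theorem parity_involution {ι : Type*} [DecidableEq ι] (s : Finset ι) (σ : ι → ι) (c : ι → ℕ)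
    (hs : ∀ i ∈ s, σ i ∈ s) (hσ : ∀ i ∈ s, σ (σ i) = i) (hc : ∀ i ∈ s, c (σ i) = c i)
    (h1 : ∀ i ∈ s, σ i = i → c i = 1) : ∑ i ∈ s, c i ≡ s.card [MOD 2] := by
  rw [← ZMod.natCast_eq_natCast_iff]
  have h2 : ∑ i ∈ s, ((c i : ZMod 2) - 1) = 0 := by
    refine Finset.sum_involution (fun i _ => σ i) ?_ ?_ ?_ ?_
    · intro i hi
      rw [hc i hi]
      have h3 : (2 : ZMod 2) = 0 := rfl
      linear_combination ((c i : ZMod 2) - 1) * h3
    · intro i hi hne he
      apply hne
      rw [h1 i hi he]
      simp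
    · intro i hi
      exact hs i hi
    · intro i hi
      exact hσ i hi
  rw [Finset.sum_sub_distrib, Finset.sum_const, nsmul_eq_mul, mul_one, sub_eq_zero] at h2
  rw [← h2]
  push_cast
  rfl

end Pool.Agent.SSF
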