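import Pool.Agent.Work.MP_a5099b_nt.F.Mult
import Pool.Agent.Work.MP_a5099b_nt.F.Parity

/-!
# Module F.Main (size M): parity of the diagonal multiplicity in characteristic not 2

PROOF. `I = {i : Y_i(0) = y}`, `u_i = Y_i - y`. For `i ∈ I` choose `σ i ∈ I` by `exists_partner` (for `i ∉ I` put `σ i = i`). `σ (σ i) = i`:
`u_(σσi)(u_(σi)) = S = u_i(u_(σi))` and `coeff 1 (u_(σ i)) ≠ 0` (`comp_comm`), so `u_(σσi) = u_i` (`comp_inj`) and `Y` is injective. All the orders are
finite: the sum of `mult_diag` is a natural number. `c i` = the order (as a natural number), `c (σ i) = c i`; if `σ i = i` then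
`u_i(u_i) = S`, `u_i ≠ S` (the order of `X - u_i` is finite), so the order is `1` (`self_inv`). `parity_involution`, `mult_fib`.
-/

set_option autoImplicit false

namespace Pool.Agent.SSF

open Polynomial

open scoped Polynomial.Bivariate

variable {k : Type*} [Field k]

/-- Let `f(X, Y)` be symmetric over a field of characteristic not `2`, `f(X, X) ≠ 0`, and let `f(y + S, Y)` be a product
of distinct factors `Y - Y_i(S)`. Then the multiplicity of `y` as a root of `f(X, X)` and the multiplicity of `y` as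
a root of `f(y, Y)` have the same parity. -/
theorem main (h2 : (2 : k) ≠ 0) {f : k[X][Y]} (hs : Bivariate.swap f = f) {y : k}
    (hd : f.eval X ≠ 0) {ι : Type*} [Fintype ι] {Yi : ι → PowerSeries k}
    (hinj : Function.Injective Yi) (hf : f.map (sh y) = ∏ i, (X - C (Yi i))) :
    (f.eval X).rootMultiplicity y ≡ (f.map (evalRingHom y)).rootMultiplicity y [MOD 2] := by
  classical
  set I : Finset ι := Finset.univ.filter (fun i => PowerSeries.constantCoeff (Yi i) = y) with hI
  have hmem : ∀ i, i ∈ I ↔ PowerSeries.constantCoeff (Yi i) = y := by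
    intro i
    simp [hI]
  have hu : ∀ i ∈ I, PowerSeries.constantCoeff (Yi i - PowerSeries.C y) = 0 := by
    intro i hi
    rw [map_sub, PowerSeries.constantCoeff_C, (hmem i).1 hi, sub_self]
  have hp : ∀ i, ∃ j, i ∈ I → (j ∈ I ∧
      PowerSeries.subst (Yi i - PowerSeries.C y) (Yi j - PowerSeries.C y) = PowerSeries.X ∧
      PowerSeries.subst (Yi j - PowerSeries.C y) (Yi i - PowerSeries.C y) = PowerSeries.X ∧
      (PowerSeries.X - (Yi j - PowerSeries.C y)).order =
        (PowerSeries.X - (Yi i - PowerSeries.C y)).order) := by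
    intro i
    by_cases hi : i ∈ I
    · obtain ⟨j, h1, h2, h3, h4⟩ := exists_partner hs hf ((hmem i).1 hi)
      exact ⟨j, fun _ => ⟨(hmem j).2 h1, h2, h3, h4⟩⟩
    · exact ⟨i, fun h => absurd h hi⟩
  choose σ hσ using hp
  have hm := mult_diag hf hd
  have hfin : ∀ i ∈ I, (PowerSeries.X - (Yi i - PowerSeries.C y)).order ≠ ⊤ := by
    intro i hi htop
    have h3 : (PowerSeries.X - (Yi i - PowerSeries.C y)).order ≤
        ∑ i ∈ I, (PowerSeries.X - (Yi i - PowerSeries.C y)).order :=
      Finset.single_le_sum (f := fun i => (PowerSeries.X - (Yi i - PowerSeries.C y)).order)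
        (fun _ _ => zero_le) hi
    rw [htop, ← hm] at h3
    exact absurd (top_le_iff.1 h3) (ENat.coe_ne_top _)
  have hc : ∀ i ∈ I, (PowerSeries.X - (Yi i - PowerSeries.C y)).order =
      (((PowerSeries.X - (Yi i - PowerSeries.C y)).order.toNat : ℕ) : ℕ∞) := fun i hi =>
    (ENat.coe_toNat (hfin i hi)).symm
  have hm2 : (f.eval X).rootMultiplicity y =
      ∑ i ∈ I, (PowerSeries.X - (Yi i - PowerSeries.C y)).order.toNat := by
    have h3 : (((f.eval X).rootMultiplicity y : ℕ) : ℕ∞) =
        ((∑ i ∈ I, (PowerSeries.X - (Yi i - PowerSeries.C y)).order.toNat : ℕ) : ℕ∞) := by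
      rw [hm, Nat.cast_sum]
      exact Finset.sum_congr rfl hc
    exact_mod_cast h3
  rw [hm2, mult_fib hf]
  refine parity_involution I σ (fun i => (PowerSeries.X - (Yi i - PowerSeries.C y)).order.toNat)
    ?_ ?_ ?_ ?_
  · exact fun i hi => (hσ i hi).1
  · intro i hi
    obtain ⟨h3, h4, h5, -⟩ := hσ i hi
    obtain ⟨h6, h7, h8, -⟩ := hσ _ h3
    have h9 := (comp_comm (hu _ h3) (hu _ hi) h5).2
    have h10 := comp_inj (hu _ h3) h9 (h7.trans h5.symm)
    exact hinj (sub_left_injective h10)
  · intro i hi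
    show (PowerSeries.X - (Yi (σ i) - PowerSeries.C y)).order.toNat = _
    rw [(hσ i hi).2.2.2]
  · intro i hi he
    have h3 := (hσ i hi).2.1
    rw [he] at h3
    rcases self_inv h2 (hu i hi) h3 with h4 | h4
    · exfalso
      apply hfin i hi
      rw [h4, sub_self, PowerSeries.order_zero]
    · show (PowerSeries.X - (Yi i - PowerSeries.C y)).order.toNat = 1
      rw [h4]
      rfl

end Pool.Agent.SSF
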