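import Mathlib

/-!
# Module F.Comp (size M): composition of power series in one variable

`u.subst w` is `u(w(S))` (Mathlib: `PowerSeries.subst a f = f(a)`, written `f.subst a`). All series have constant term `0`
(`HasSubst.of_constantCoeff_zero'`).

PROOFS.
* `coeff_one_comp`: the coefficient of `S` of `w(u(S))` is the product of the coefficients (`coeff_subst'`, a finite sum; or write `w = c S + S^2 w'`).
* `order_comp`: if `u = S * e` with `e` a unit (constant coefficient `≠ 0`) then `f(u)` has the order of `f`: write `f = S^n g`, `g(0) ≠ 0`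
  (`PowerSeries.order`, `X_pow_order_dvd`), `f(u) = u^n g(u) = S^n e^n g(u)`, `g(u)` has constant coefficient `g(0)`; the case `f = 0` is clear
  (`subst` of `0`).
* `comp_comm`: from `w(u) = S` the linear coefficients satisfy `w_1 u_1 = 1`; `u` has an inverse `u'` for the composition
  (`substInvOfIsUnit`, `subst_substInvOfIsUnit_left/right`), `w = w(u(u')) = u'`, so `u(w) = S`.
* `comp_inj`: `w(u) = w'(u)`, `u_1 ≠ 0`: compose with the inverse of `u`.
* `self_inv`: `u(u) = S`: `u_1^2 = 1`, `u_1 = ±1`. Let `u_1 = 1` and `u ≠ S`, `u = S + d S^n + ..` with `n ≥ 2`, `d ≠ 0` (`n` = order of `u - S`). Then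
  `u(u) = u + d u^n + .. ≡ S + 2 d S^n` modulo `S^(n+1)`: with `r = u - S` of order `n`: `u(u) - S = u(u) - u + u - S = r(u) + r`, both `r(u)` and `r` are
  `d S^n` modulo `S^(n+1)` (`r = S^n g`, `r(u) = u^n g(u)`), so `2 d = 0`, contradiction.
-/

set_option autoImplicit false

namespace Pool.Agent.SSF

open PowerSeries

variable {k : Type*} [Field k]

private theorem hs {u : k⟦X⟧} (hu : constantCoeff u = 0) : HasSubst u :=
  HasSubst.of_constantCoeff_zero' hu

theorem coeff_one_comp {u w : k⟦X⟧} (hu : constantCoeff u = 0) (hw : constantCoeff w = 0) :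
    coeff 1 (w.subst u : k⟦X⟧) = coeff 1 w * coeff 1 u := by
  rw [coeff_subst' (hs hu), finsum_eq_single _ 1]
  · rw [pow_one, smul_eq_mul]
  · intro d hd
    rcases Nat.lt_or_gt_of_ne hd with h | h
    · have h0 : d = 0 := by omega
      subst h0
      rw [pow_zero, coeff_one, if_neg one_ne_zero, smul_zero]
    · rw [coeff_of_lt_order 1, smul_zero]
      refine lt_of_lt_of_le ?_ (le_order_pow_of_constantCoeff_eq_zero d hu)
      exact_mod_cast h

theorem constCoeff_comp {u w : k⟦X⟧} (hu : constantCoeff u = 0) :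
    constantCoeff (w.subst u : k⟦X⟧) = constantCoeff w := by
  rw [← coeff_zero_eq_constantCoeff_apply, coeff_subst' (hs hu), finsum_eq_single _ 0]
  · rw [pow_zero, coeff_zero_one, smul_eq_mul, mul_one, coeff_zero_eq_constantCoeff_apply]
  · intro d hd
    rw [coeff_zero_eq_constantCoeff_apply, map_pow, hu, zero_pow hd, smul_zero]

private theorem order_u {u : k⟦X⟧} (hu : constantCoeff u = 0) (h1 : coeff 1 u ≠ 0) : u.order = 1 := by
  have h2 : u.order = ((1 : ℕ) : ℕ∞) := by
    rw [order_eq_nat]
    refine ⟨h1, ?_⟩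
    intro i hi
    have h0 : i = 0 := by omega
    rw [h0, coeff_zero_eq_constantCoeff_apply, hu]
  rw [h2]
  rfl

private theorem order_of_const {g : k⟦X⟧} (h : constantCoeff g ≠ 0) : g.order = 0 := by
  have h2 : g.order = ((0 : ℕ) : ℕ∞) := by
    rw [order_eq_nat]
    refine ⟨by rwa [coeff_zero_eq_constantCoeff_apply], ?_⟩
    intro i hi
    omega
  rw [h2]
  rfl

private theorem subst_zero' {u : k⟦X⟧} (hu : constantCoeff u = 0) : ((0 : k⟦X⟧).subst u : k⟦X⟧) = 0 := by
  rw [← coe_substAlgHom (hs hu), map_zero]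

theorem order_comp {u f : k⟦X⟧} (hu : constantCoeff u = 0) (h1 : coeff 1 u ≠ 0) :
    (f.subst u : k⟦X⟧).order = f.order := by
  rw [← order_eq_order]
  by_cases hf : f = 0
  · rw [hf, subst_zero' hu]
  · have e1 : X ^ f.order.toNat * f.divXPowOrder = f := X_pow_order_mul_divXPowOrder
    have h2 : constantCoeff f.divXPowOrder ≠ 0 := by
      intro h
      exact hf (constantCoeff_divXPowOrder_eq_zero_iff.1 h)
    have e2 : (f.subst u : k⟦X⟧) = u ^ f.order.toNat * f.divXPowOrder.subst u := by
      conv_lhs => rw [← e1]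
      rw [subst_mul (hs hu), subst_pow (hs hu), subst_X (hs hu)]
    rw [e2, order_mul, order_pow, order_u hu h1, 
      order_of_const (g := f.divXPowOrder.subst u) (by rwa [constCoeff_comp hu]), add_zero,
      nsmul_eq_mul, mul_one, coe_toNat_order hf]

theorem comp_comm {u w : k⟦X⟧} (hu : constantCoeff u = 0) (hw : constantCoeff w = 0)
    (h : (w.subst u : k⟦X⟧) = X) : (u.subst w : k⟦X⟧) = X ∧ coeff 1 u ≠ 0 := by
  have h1 : coeff 1 w * coeff 1 u = 1 := by
    rw [← coeff_one_comp hu hw, h, coeff_one_X]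
  have h2 : coeff 1 u ≠ 0 := by
    intro h0
    rw [h0, mul_zero] at h1
    exact zero_ne_one h1
  have h3 : IsUnit (coeff 1 u) := IsUnit.mk0 _ h2
  have e1 := subst_substInvOfIsUnit_right u hu h3
  have hv : HasSubst (substInvOfIsUnit u h3) := HasSubst.substInvOfIsUnit u h3
  have e2 : w = substInvOfIsUnit u h3 := by
    have e3 := subst_comp_subst_apply (hs hu) hv w
    rw [e1, X_subst, h, subst_X hv] at e3
    exact e3.symm
  refine ⟨?_, h2⟩
  rw [e2]
  exact e1

theorem comp_inj {u w w' : k⟦X⟧} (hu : constantCoeff u = 0) (h1 : coeff 1 u ≠ 0)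
    (h : (w.subst u : k⟦X⟧) = w'.subst u) : w = w' := by
  have h3 : IsUnit (coeff 1 u) := IsUnit.mk0 _ h1
  have e1 := subst_substInvOfIsUnit_right u hu h3
  have hv : HasSubst (substInvOfIsUnit u h3) := HasSubst.substInvOfIsUnit u h3
  have e3 := subst_comp_subst_apply (hs hu) hv w
  have e4 := subst_comp_subst_apply (hs hu) hv w'
  rw [e1, X_subst] at e3 e4
  rw [← e3, ← e4, h]

theorem self_inv (h2 : (2 : k) ≠ 0) {u : k⟦X⟧} (hu : constantCoeff u = 0)
    (h : (u.subst u : k⟦X⟧) = X) : u = X ∨ (X - u : k⟦X⟧).order = 1 := by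
  have h1 : coeff 1 u * coeff 1 u = 1 := by
    rw [← coeff_one_comp hu hu, h, coeff_one_X]
  have h3 : (coeff 1 u - 1) * (coeff 1 u + 1) = 0 := by linear_combination h1
  rcases mul_eq_zero.1 h3 with h4 | h4
  · left
    have h5 : coeff 1 u = 1 := by linear_combination h4
    by_contra hne
    have hr : u - X ≠ 0 := sub_ne_zero.2 hne
    have e1 : X ^ (u - X).order.toNat * (u - X).divXPowOrder = u - X := X_pow_order_mul_divXPowOrder
    have hg : constantCoeff (u - X).divXPowOrder ≠ 0 := by
      intro h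
      exact hr (constantCoeff_divXPowOrder_eq_zero_iff.1 h)
    obtain ⟨e, he⟩ := X_dvd_iff.2 hu
    have e0 : constantCoeff e = 1 := by
      have h6 := h5
      rw [he, show (1 : ℕ) = 0 + 1 from rfl, coeff_succ_X_mul, coeff_zero_eq_constantCoeff_apply] at h6
      exact h6
    have e2 : ((u - X).subst u : k⟦X⟧) = X - u := by
      rw [subst_sub (hs hu), h, subst_X (hs hu)]
    have e3 : ((u - X).subst u : k⟦X⟧) = u ^ (u - X).order.toNat * (u - X).divXPowOrder.subst u := by
      conv_lhs => rw [← e1]
      rw [subst_mul (hs hu), subst_pow (hs hu), subst_X (hs hu)]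
    have e4 : X ^ (u - X).order.toNat * (e ^ (u - X).order.toNat * (u - X).divXPowOrder.subst u) =
        X ^ (u - X).order.toNat * (-(u - X).divXPowOrder) := by
      have e5 : (X * e) ^ (u - X).order.toNat * (u - X).divXPowOrder.subst u = X - u := by
        rw [← e2, e3]
        congr 2
        exact he.symm
      rw [mul_pow] at e5
      linear_combination e5 + e1
    have e6 := mul_left_cancel₀ (pow_ne_zero _ X_ne_zero) e4
    have e7 := congrArg constantCoeff e6
    rw [map_mul, map_pow, e0, one_pow, one_mul, constCoeff_comp hu, map_neg] at e7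
    have e8 : 2 * constantCoeff (u - X).divXPowOrder = 0 := by linear_combination e7
    exact hg ((mul_eq_zero.1 e8).resolve_left h2)
  · right
    have h5 : coeff 1 u = -1 := by linear_combination h4
    refine order_u ?_ ?_
    · rw [map_sub, hu, constantCoeff_X, sub_zero]
    · rw [map_sub, h5, coeff_one_X]
      intro h6
      exact h2 (by linear_combination h6)

end Pool.Agent.SSF
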