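import Pool.Agent.Work.MP_a5099b_nt.F.Comp

/-!
# Module F.Inv (size M): the involution on the branches

`f` is a symmetric polynomial `f(X, Y)` over `k`, `sh y p = p(y + S)`, and `f(y + S, Y) = ∏_i (Y - Y_i(S))` with distinct series `Y_i`.
`I = {i : Y_i(0) = y}`, `u_i = Y_i - y`.

PROOF. Let `i ∈ I`. `f(y + S, Y_i(S)) = 0`; by symmetry `f(Y_i(S), y + S) = 0` (evaluate with `Polynomial.aevalAeval` in `k⟦X⟧`, `Bivariate.aevalAeval_swap`).
Substituting `S := u_i(S)` (the ring homomorphism `substAlgHom`) in the product formula: `f(y + u_i(S), Y) = ∏_j (Y - Y_j(u_i(S)))`, so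
`∏_j (y + S - Y_j(u_i(S))) = 0` and for some `j`: `Y_j(u_i(S)) = y + S`; the constant coefficient shows `Y_j(0) = y` (`constCoeff_comp`), so `j ∈ I` and
`u_j(u_i(S)) = S`. By `comp_comm` `u_i(u_j(S)) = S` and `coeff 1 (u_i) ≠ 0`. Orders: `X - u_j` substituted by `u_i` is `u_i - X`, so
`order_comp` gives `ord (X - u_j) = ord (u_i - X) = ord (X - u_i)`.
-/

set_option autoImplicit false

namespace Pool.Agent.SSF

open Polynomial

open scoped Polynomial.Bivariate

variable {k : Type*} [Field k]

/-- `p(X) ↦ p(y + S)` -/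
noncomputable def sh (y : k) : k[X] →+* PowerSeries k :=
  (Polynomial.eval₂RingHom (PowerSeries.C (R := k)) (PowerSeries.C y + PowerSeries.X))

/-- evaluation at a pair of power series -/
private noncomputable def pev (a b : PowerSeries k) : k[X][Y] →+* PowerSeries k :=
  Polynomial.eval₂RingHom (Polynomial.eval₂RingHom (PowerSeries.C (R := k)) a) b

private theorem pev_swap (f : k[X][Y]) (a b : PowerSeries k) : pev b a (Bivariate.swap f) = pev a b f := by
  have h : (pev b a).comp (Bivariate.swap (R := k)).toRingHom = pev a b := by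
    refine Polynomial.ringHom_ext' (Polynomial.ringHom_ext' (RingHom.ext fun r => ?_) ?_) ?_
    · show pev b a (Bivariate.swap (C (C r) : k[X][Y])) = pev a b (C (C r) : k[X][Y])
      rw [Bivariate.swap_C]
      simp [pev]
    · show pev b a (Bivariate.swap (C X : k[X][Y])) = pev a b (C X : k[X][Y])
      rw [Bivariate.swap_X]
      simp [pev]
    · show pev b a (Bivariate.swap (X : k[X][Y])) = pev a b (X : k[X][Y])
      rw [Bivariate.swap_Y]
      simp [pev]
  exact DFunLike.congr_fun h f

private theorem pev_eq_eval (f : k[X][Y]) (g : k[X] →+* PowerSeries k) (a b : PowerSeries k)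
    (hg : g = Polynomial.eval₂RingHom (PowerSeries.C (R := k)) a) : (f.map g).eval b = pev a b f := by
  subst hg
  rw [eval_map]
  rfl

theorem exists_partner {f : k[X][Y]} (hs : Bivariate.swap f = f) {y : k} {ι : Type*} [Fintype ι]
    {Yi : ι → PowerSeries k} (hf : f.map (sh y) = ∏ i, (X - C (Yi i))) {i : ι}
    (hi : PowerSeries.constantCoeff (Yi i) = y) :
    ∃ j : ι, PowerSeries.constantCoeff (Yi j) = y ∧
      PowerSeries.subst (Yi i - PowerSeries.C y) (Yi j - PowerSeries.C y) = PowerSeries.X ∧
      PowerSeries.subst (Yi j - PowerSeries.C y) (Yi i - PowerSeries.C y) = PowerSeries.X ∧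
      (PowerSeries.X - (Yi j - PowerSeries.C y)).order =
        (PowerSeries.X - (Yi i - PowerSeries.C y)).order := by
  set u : PowerSeries k := Yi i - PowerSeries.C y with hu
  have hu0 : PowerSeries.constantCoeff u = 0 := by
    rw [hu, map_sub, hi, PowerSeries.constantCoeff_C, sub_self]
  have hsu : PowerSeries.HasSubst u := PowerSeries.HasSubst.of_constantCoeff_zero' hu0
  -- `f(y + S, Y_i) = 0`, by symmetry `f(Y_i, y + S) = 0`
  have h1 : pev (PowerSeries.C y + PowerSeries.X) (Yi i) f = 0 := by
    rw [← pev_eq_eval f (sh y) _ _ rfl, hf, eval_prod]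
    refine Finset.prod_eq_zero (Finset.mem_univ i) ?_
    simp
  have h2 : pev (Yi i) (PowerSeries.C y + PowerSeries.X) f = 0 := by
    rw [← pev_swap, hs, h1]
  -- substitution
  set σ : PowerSeries k →ₐ[k] PowerSeries k := PowerSeries.substAlgHom (R := k) hsu with hσ
  have hσa : ∀ g : PowerSeries k, σ g = PowerSeries.subst u g := fun g => by
    rw [hσ, PowerSeries.coe_substAlgHom]
  have hσC : ∀ r : k, σ (PowerSeries.C r) = PowerSeries.C r := fun r => by
    have : (PowerSeries.C r : PowerSeries k) = algebraMap k (PowerSeries k) r := rfl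
    rw [this, AlgHom.commutes]
  have hσX : σ PowerSeries.X = u := by
    rw [hσa]
    exact PowerSeries.subst_X hsu
  have h3 : (σ : PowerSeries k →+* PowerSeries k).comp (sh y) =
      Polynomial.eval₂RingHom (PowerSeries.C (R := k)) (Yi i) := by
    refine Polynomial.ringHom_ext (fun r => ?_) ?_
    · simp only [sh, RingHom.comp_apply, coe_eval₂RingHom, eval₂_C]
      exact hσC r
    · simp only [sh, RingHom.comp_apply, coe_eval₂RingHom, eval₂_X]
      show σ (PowerSeries.C y + PowerSeries.X) = Yi i
      rw [map_add, hσC, hσX, hu]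
      ring
  have h4 : ∏ j, (PowerSeries.C y + PowerSeries.X - σ (Yi j)) = 0 := by
    rw [← pev_eq_eval f _ _ _ h3, ← Polynomial.map_map, hf, Polynomial.map_prod, eval_prod] at h2
    rw [← h2]
    refine Finset.prod_congr rfl fun j _ => ?_
    simp
  obtain ⟨j, -, hj⟩ := Finset.prod_eq_zero_iff.1 h4
  have hj' : σ (Yi j) = PowerSeries.C y + PowerSeries.X := (sub_eq_zero.1 hj).symm
  have hcj : PowerSeries.constantCoeff (Yi j) = y := by
    have h5 := constCoeff_comp (w := Yi j) hu0
    rw [← hσa, hj', map_add, PowerSeries.constantCoeff_C, PowerSeries.constantCoeff_X, add_zero] at h5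
    exact h5.symm
  have hw0 : PowerSeries.constantCoeff (Yi j - PowerSeries.C y) = 0 := by
    rw [map_sub, hcj, PowerSeries.constantCoeff_C, sub_self]
  have h6 : PowerSeries.subst u (Yi j - PowerSeries.C y) = (PowerSeries.X : PowerSeries k) := by
    rw [← hσa, map_sub, hj', hσC]
    ring
  obtain ⟨h7, h8⟩ := comp_comm hu0 hw0 h6
  refine ⟨j, hcj, h6, h7, ?_⟩
  have h9 := order_comp (f := PowerSeries.X - (Yi j - PowerSeries.C y)) hu0 h8
  have h10 : (PowerSeries.subst u (PowerSeries.X - (Yi j - PowerSeries.C y)) : PowerSeries k) = -(PowerSeries.X - u) := by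
    rw [← hσa, map_sub, hσX, hσa, h6, neg_sub]
  rw [← h9, ← PowerSeries.order_eq_order]
  refine Eq.trans (congrArg PowerSeries.order h10) (PowerSeries.order_neg _)

end Pool.Agent.SSF
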