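import Pool.Agent.Work.MP_a5099b_nt.F.Inv

/-!
# Module F.Mult (size M): multiplicities through the branches

PROOFS. `mult_diag`: `f.eval X = f(X, X)`; `sh y (f(X, X)) = f(y + S, y + S) = ∏_i (y + S - Y_i(S))` (evaluate the product formula at `y + S`), the order of a
product is the sum (`PowerSeries.order_mul`, `k⟦X⟧` is a domain), the order of `y + S - Y_i` is `0` if `Y_i(0) ≠ y`, and
`y + S - Y_i = S - u_i`. For a polynomial `p ≠ 0`: `p = (X - y)^n p₁`, `p₁(y) ≠ 0`, `sh y p = S^n * sh y p₁`, so the order of `sh y p` is the root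
multiplicity (`sh y` sends `X - C y` to `S`, the constant coefficient of `sh y p₁` is `p₁(y)`).
`mult_fib`: apply `PowerSeries.constantCoeff` to the coefficients of the product formula: `f(y, Y) = ∏_i (Y - Y_i(0))`
(`constantCoeff ∘ sh y = evalRingHom y`), the multiplicity of the root `y` is the number of `i` with `Y_i(0) = y` (`rootMultiplicity`, `count_roots`,
`roots_prod_X_sub_C`-type lemma).
-/

set_option autoImplicit false

namespace Pool.Agent.SSF

open Polynomial

open scoped Polynomial.Bivariate

variable {k : Type*} [Field k]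

private theorem cc_sh (y : k) (p : k[X]) : PowerSeries.constantCoeff (sh y p) = p.eval y := by
  rw [sh, Polynomial.coe_eval₂RingHom, Polynomial.hom_eval₂]
  have h1 : (PowerSeries.constantCoeff (R := k)).comp (PowerSeries.C (R := k)) = RingHom.id k := by
    ext a
    simp
  rw [h1, map_add, PowerSeries.constantCoeff_C, PowerSeries.constantCoeff_X, add_zero]
  rfl

private theorem sh_X (y : k) : sh y X = PowerSeries.C y + PowerSeries.X := by
  rw [sh, Polynomial.coe_eval₂RingHom, Polynomial.eval₂_X]

private theorem sh_C (y a : k) : sh y (C a) = PowerSeries.C a := by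
  rw [sh, Polynomial.coe_eval₂RingHom, Polynomial.eval₂_C]

private theorem order_zero {u : PowerSeries k} (h : PowerSeries.constantCoeff u ≠ 0) : u.order = 0 := by
  have h1 : u.order ≤ (0 : ℕ) := PowerSeries.order_le 0 (by rwa [PowerSeries.coeff_zero_eq_constantCoeff_apply])
  exact le_antisymm (by exact_mod_cast h1) (by simp)

private theorem order_sh {y : k} {p : k[X]} (hp : p ≠ 0) :
    (sh y p).order = (p.rootMultiplicity y : ℕ∞) := by
  obtain ⟨q, hq, hdvd⟩ := Polynomial.exists_eq_pow_rootMultiplicity_mul_and_not_dvd p hp y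
  have h1 : sh y p = PowerSeries.X ^ (p.rootMultiplicity y) * sh y q := by
    conv_lhs => rw [hq]
    rw [map_mul, map_pow, map_sub, sh_X, sh_C, add_sub_cancel_left]
  have h2 : PowerSeries.constantCoeff (sh y q) ≠ 0 := by
    rw [cc_sh]
    rwa [Polynomial.dvd_iff_isRoot] at hdvd
  rw [h1, PowerSeries.order_mul, order_zero h2, add_zero, PowerSeries.order_X_pow]

open Classical in
theorem mult_diag {f : k[X][Y]} {y : k} {ι : Type*} [Fintype ι] {Yi : ι → PowerSeries k}
    (hf : f.map (sh y) = ∏ i, (X - C (Yi i))) (hd : f.eval X ≠ 0) :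
    ((f.eval X).rootMultiplicity y : ℕ∞) =
      ∑ i ∈ Finset.univ.filter (fun i => PowerSeries.constantCoeff (Yi i) = y),
        (PowerSeries.X - (Yi i - PowerSeries.C y)).order := by
  have h1 : sh y (f.eval X) = ∏ i, (PowerSeries.C y + PowerSeries.X - Yi i) := by
    rw [← Polynomial.eval₂_at_apply, ← Polynomial.eval_map, hf, Polynomial.eval_prod, sh_X]
    refine Finset.prod_congr rfl fun i _ => ?_
    rw [Polynomial.eval_sub, Polynomial.eval_X, Polynomial.eval_C]
  have h2 : ∀ s : Finset ι, (∏ i ∈ s, (PowerSeries.C y + PowerSeries.X - Yi i)).order =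
      ∑ i ∈ s, (PowerSeries.C y + PowerSeries.X - Yi i).order := by
    intro s
    induction s using Finset.induction_on with
    | empty =>
      rw [Finset.prod_empty, Finset.sum_empty]
      exact order_zero (by simp)
    | insert a s ha ih => rw [Finset.prod_insert ha, Finset.sum_insert ha, PowerSeries.order_mul, ih]
  rw [← order_sh hd, h1, h2, Finset.sum_filter]
  refine Finset.sum_congr rfl fun i _ => ?_
  split_ifs with hi
  · congr 1
    ring
  · refine order_zero ?_
    rw [map_sub, map_add, PowerSeries.constantCoeff_C, PowerSeries.constantCoeff_X, add_zero, sub_ne_zero]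
    exact fun h => hi h.symm

open Classical in
theorem mult_fib {f : k[X][Y]} {y : k} {ι : Type*} [Fintype ι] {Yi : ι → PowerSeries k}
    (hf : f.map (sh y) = ∏ i, (X - C (Yi i))) :
    (f.map (evalRingHom y)).rootMultiplicity y =
      (Finset.univ.filter fun i => PowerSeries.constantCoeff (Yi i) = y).card := by
  have h1 : (evalRingHom y : k[X] →+* k) = (PowerSeries.constantCoeff (R := k)).comp (sh y) := by
    refine RingHom.ext fun p => ?_
    rw [RingHom.comp_apply, cc_sh, Polynomial.coe_evalRingHom]
  have h2 : f.map (evalRingHom y) = ∏ i, (X - C (PowerSeries.constantCoeff (Yi i))) := by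
    rw [h1, ← Polynomial.map_map, hf, Polynomial.map_prod]
    refine Finset.prod_congr rfl fun i _ => ?_
    rw [Polynomial.map_sub, Polynomial.map_X, Polynomial.map_C]
  have h3 : (∏ i, (X - C (PowerSeries.constantCoeff (Yi i)))) =
      ((Finset.univ.val.map fun i => PowerSeries.constantCoeff (Yi i)).map fun a => X - C a).prod := by
    rw [Multiset.map_map]
    rfl
  rw [h2, ← Polynomial.count_roots, h3, Polynomial.roots_multiset_prod_X_sub_C, Multiset.count_map]
  rw [Finset.card_def, Finset.filter_val]
  congr 1
  refine Multiset.filter_congr fun i _ => ?_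
  exact eq_comm

end Pool.Agent.SSF
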